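import Pool.Agent.H34.RR.Med
import Pool.Agent.H96.WP.Oq

/-!
# [H34 RR OB] (B2) One box with weights, `N ≡ 0 (mod R)` (copy of H96/WP/Oq)

`wc w v N = ∑_d w d 1[exactly one of the N + v (d, l) is prime] ≤ Ω = ∑ w`.  From `med_one`:
`E wc ≥ Ω/80 ≥ 100/80`, so `P(wc > 1) ≥ (Ω/80 - 1)/Ω > 0` (in `ob_one` of H96/WP/Oq replace `e` by this number, `pc` by
`wc`, the constant `13/50` by `1/80`).
-/

set_option autoImplicit false

namespace Pool.Agent.H34.RR

open Finset Filter Pool.Agent.H21.MT Pool.Agent.H92.MM Pool.Agent.H61.UN Pool.Agent.H96.WP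

open Classical in
/-- total weight of the blocks which contain exactly one prime -/
noncomputable def wc {m s : ℕ} (w : Fin m → ℝ) (v : Fin m × Fin s → ℕ) (N : ℕ) : ℝ :=
  ∑ d, if (∃! l : Fin s, (N + v (d, l)).Prime) then w d else 0

private theorem dd_le {ι : Type} [Fintype ι] [DecidableEq ι] {L : ℕ} (hL : 1 ≤ L) {v : ι → ℕ}
    (hv : ∀ i, v i ≤ L) : dd v ≤ L ^ (Fintype.card ι ^ 2) := by
  unfold dd
  calc ∏ q ∈ (univ : Finset (ι × ι)).filter (fun q => q.1 ≠ q.2), ((v q.1 : ℤ) - v q.2).natAbs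
      ≤ ∏ _q ∈ (univ : Finset (ι × ι)).filter (fun q => q.1 ≠ q.2), L := by
        apply prod_le_prod'
        intro q _
        have h1 := hv q.1
        have h2 := hv q.2
        omega
    _ = L ^ ((univ : Finset (ι × ι)).filter (fun q => q.1 ≠ q.2)).card := prod_const _
    _ ≤ L ^ (Fintype.card ι ^ 2) := by
        apply Nat.pow_le_pow_right hL
        refine (card_filter_le _ _).trans ?_
        rw [card_univ, Fintype.card_prod, sq]

open Classical in
private theorem wc_nonneg {m s : ℕ} {w : Fin m → ℝ} (hw : ∀ d, 0 ≤ w d) (v : Fin m × Fin s → ℕ) (N : ℕ) :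
    0 ≤ wc w v N := by
  unfold wc
  refine sum_nonneg fun d _ => ?_
  split_ifs
  · exact hw d
  · exact le_rfl

open Classical in
private theorem wc_le {m s : ℕ} {w : Fin m → ℝ} (hw : ∀ d, 0 ≤ w d) (v : Fin m × Fin s → ℕ) (N : ℕ) :
    wc w v N ≤ ∑ d, w d := by
  unfold wc
  refine sum_le_sum fun d _ => ?_
  split_ifs
  · exact le_rfl
  · exact hw d

open Classical in
private theorem ob_one1 {m s : ℕ} {w : Fin m → ℝ} (hw : ∀ d, 0 ≤ w d) (hw1 : 100 ≤ ∑ d, w d) {C2 nmv : ℝ}
    (hC2 : 0 < C2) (hnm : 0 < nmv) {x a : ℝ} (v : Fin m × Fin s → ℕ) {W b : ℕ} (μ : ℕ → ℝ)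
    (h0 : ∀ N, 0 ≤ μ N)
    (h1 : ∀ N, μ N ≠ 0 → N % W = b % W ∧ ∀ i, Rgh (x ^ a) (N + v i))
    (h2 : ∀ N, μ N ≤ C2 * gw x N / nmv) (h3 : ∑ N ∈ Tx x, μ N = 1)
    (h4 : ∀ j : Fin m, 1 / 80 ≤
      ∑ N ∈ (Tx x).filter (fun N => ∃! l : Fin s, (N + v (j, l)).Prime), μ N) :
    1 / 400 / C2 * nmv ≤ ∑ N ∈ (Tx x).filter (fun N => (∀ i, Rgh (x ^ a) (N + v i)) ∧
              1 < wc w v N), if N % W = b % W then gw x N else 0 := by
  obtain ⟨Om, hOm⟩ : ∃ Om : ℝ, Om = ∑ d, w d := ⟨_, rfl⟩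
  rw [← hOm] at hw1
  have hOm0 : 0 < Om := by linarith
  have hdc : 1 / 80 * Om ≤ ∑ N ∈ Tx x, μ N * wc w v N := by
    calc 1 / 80 * Om = ∑ j : Fin m, w j * (1 / 80) := by
          rw [hOm, ← sum_mul, mul_comm]
      _ ≤ ∑ j : Fin m, w j * ∑ N ∈ (Tx x).filter (fun N => ∃! l : Fin s, (N + v (j, l)).Prime), μ N :=
          sum_le_sum fun j _ => mul_le_mul_of_nonneg_left (h4 j) (hw j)
      _ = ∑ j : Fin m, ∑ N ∈ Tx x, μ N *
            (if (∃! l : Fin s, (N + v (j, l)).Prime) then w j else 0) := by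
          refine sum_congr rfl fun j _ => ?_
          rw [sum_filter, mul_sum]
          refine sum_congr rfl fun N _ => ?_
          split_ifs
          · rw [mul_comm]
          · rw [mul_zero, mul_zero]
      _ = ∑ N ∈ Tx x, μ N * wc w v N := by
          rw [sum_comm]
          refine sum_congr rfl fun N _ => ?_
          unfold wc
          rw [mul_sum]
  obtain ⟨E, hE⟩ : ∃ E : Finset ℕ, E = (Tx x).filter (fun N => 1 < wc w v N) := ⟨_, rfl⟩
  have hup : ∑ N ∈ Tx x, μ N * wc w v N ≤ Om * ∑ N ∈ E, μ N + 1 := by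
    rw [← sum_filter_add_sum_filter_not (Tx x) (fun N => 1 < wc w v N), ← hE]
    refine add_le_add ?_ ?_
    · rw [mul_sum]
      refine sum_le_sum fun N _ => ?_
      rw [mul_comm]
      refine mul_le_mul_of_nonneg_right ?_ (h0 N)
      rw [hOm]
      exact wc_le hw v N
    · calc _ ≤ ∑ N ∈ (Tx x).filter (fun N => ¬ 1 < wc w v N), μ N * 1 := by
            refine sum_le_sum fun N hN => ?_
            rw [mem_filter, not_lt] at hN
            exact mul_le_mul_of_nonneg_left hN.2 (h0 N)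
        _ ≤ ∑ N ∈ Tx x, μ N * 1 := by
            refine sum_le_sum_of_subset_of_nonneg (filter_subset _ _) fun N _ _ => ?_
            exact mul_nonneg (h0 N) zero_le_one
        _ = _ := by rw [← sum_mul, h3, one_mul]
  have hEe : 1 / 400 ≤ ∑ N ∈ E, μ N := by
    have h5 := hdc.trans hup
    have h6 : 1 / 400 * Om ≤ (∑ N ∈ E, μ N) * Om := by nlinarith
    exact le_of_mul_le_mul_right h6 hOm0
  have hfin : ∑ N ∈ E, μ N ≤ C2 / nmv *
      ∑ N ∈ (Tx x).filter (fun N => (∀ i, Rgh (x ^ a) (N + v i)) ∧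
              1 < wc w v N), if N % W = b % W then gw x N else 0 := by
    rw [mul_sum]
    have h7 : ∑ N ∈ E, μ N = ∑ N ∈ (Tx x).filter (fun N => (∀ i, Rgh (x ^ a) (N + v i)) ∧
              1 < wc w v N), μ N := by
      rw [hE]
      symm
      refine sum_subset ?_ ?_
      · intro N hN
        rw [mem_filter] at hN ⊢
        exact ⟨hN.1, hN.2.2⟩
      · intro N hN hN'
        rw [mem_filter] at hN
        by_contra hne
        apply hN'
        rw [mem_filter]
        exact ⟨hN.1, (h1 N hne).2, hN.2⟩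
    rw [h7]
    refine sum_le_sum fun N _ => ?_
    by_cases hne : μ N = 0
    · rw [hne]
      refine mul_nonneg (by positivity) ?_
      split_ifs
      · exact (Real.exp_pos _).le
      · exact le_rfl
    · rw [if_pos (h1 N hne).1]
      calc μ N ≤ C2 * gw x N / nmv := h2 N
        _ = C2 / nmv * gw x N := by ring
  have h8 := hEe.trans hfin
  rw [div_mul_eq_mul_div, le_div_iff₀ hnm] at h8
  rw [div_mul_eq_mul_div, div_le_iff₀ hC2]
  linarith

open Classical in
theorem box_class1 (m : ℕ) (hm : 1 ≤ m) :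
    ∃ (s : ℕ) (a : ℝ) (wd : ℕ), 1 ≤ s ∧ 0 < a ∧ a ≤ 1 / 20 ∧ ∀ w : Fin m → ℝ, (∀ d, 0 ≤ w d) →
      100 ≤ ∑ d, w d → ∀ R : ℕ, 0 < R → primorial wd ∣ R →
      ∃ c : ℝ, 0 < c ∧ ∀ᶠ x : ℝ in atTop, ∀ L : ℕ, 1 ≤ L → (L : ℝ) ≤ Real.log x →
        ∀ v ∈ IJ (Fin m × Fin s) L, (∀ i, Nat.Coprime (v i) R) →
          c * x / Real.log x ^ (m * s) ≤
            ∑ N ∈ (Tx x).filter (fun N => R ∣ N ∧ (∀ i, Rgh (x ^ a) (N + v i)) ∧
              1 < wc w v N), gw x N := by
  obtain ⟨s, a, C2, hs, ha, ha1, hC2, hB⟩ := med_one m hm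
  have hcard : Fintype.card (Fin m × Fin s) = m * s := by
    rw [Fintype.card_prod, Fintype.card_fin, Fintype.card_fin]
  have : Nonempty (Fin m × Fin s) := ⟨(⟨0, by omega⟩, ⟨0, by omega⟩)⟩
  obtain ⟨A', hA'⟩ : ∃ A' : ℝ, A' = (Fintype.card (Fin m × Fin s) : ℝ) ^ 2 + 1 := ⟨_, rfl⟩
  have hA'1 : 1 ≤ A' := by
    rw [hA']
    have : (0 : ℝ) ≤ (Fintype.card (Fin m × Fin s) : ℝ) ^ 2 := by positivity
    linarith
  obtain ⟨w0, hw0⟩ := hB A'
  obtain ⟨w, hw⟩ : ∃ w : ℕ, w = max w0 (m * s) := ⟨_, rfl⟩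
  have hw0w : w0 ≤ w := by rw [hw]; exact le_max_left _ _
  have hKw : m * s ≤ w := by rw [hw]; exact le_max_right _ _
  refine ⟨s, a, w, hs, ha, ha1, ?_⟩
  intro wt hwt hwt1 R hR hRw
  obtain ⟨c, hc, hnms⟩ := nr_sum (Fin m × Fin s) a ha (by linarith) R w hR (by rw [hcard]; exact hKw)
    hRw
  refine ⟨1 / 400 / C2 * c, by positivity, ?_⟩
  have hRlog := Real.tendsto_log_atTop.eventually_ge_atTop (R : ℝ)
  filter_upwards [hw0 w hw0w, nmu_pos (m * s) w hKw a, hnms A', hRlog,
    Real.tendsto_log_atTop.eventually_ge_atTop (1 : ℝ)] with x hx1 hx3 hx4 hxR hxl L hL hLx v hv hcop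
  have hl0 : 0 < Real.log x := by linarith
  have hvinj : Function.Injective v := (mem_IJ.1 hv).2
  have hvL := (mem_IJ.1 hv).1
  have hD : dd v ≠ 0 := dd_ne hvinj
  obtain ⟨W, hW⟩ : ∃ W, W = WR R (dd v) := ⟨_, rfl⟩
  have hWpos : 0 < W := by rw [hW]; exact wr_pos hR _
  have hWpr : primorial w ∣ W := by rw [hW]; exact hRw.trans (wr_dvd_R _ _)
  have hWle : (W : ℝ) ≤ Real.log x ^ A' := by
    have h1 : (W : ℝ) ≤ R * (dd v : ℕ) := by
      rw [hW]
      exact_mod_cast wr_le hD
    have h2 : ((dd v : ℕ) : ℝ) ≤ (L : ℝ) ^ (Fintype.card (Fin m × Fin s) ^ 2) := by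
      exact_mod_cast dd_le hL hvL
    have h3 : (L : ℝ) ^ (Fintype.card (Fin m × Fin s) ^ 2) ≤
        Real.log x ^ (Fintype.card (Fin m × Fin s) ^ 2) :=
      pow_le_pow_left₀ (Nat.cast_nonneg _) hLx _
    rw [hA', Real.rpow_add hl0, Real.rpow_one, mul_comm]
    have h4 : Real.log x ^ ((Fintype.card (Fin m × Fin s) : ℝ) ^ 2) =
        Real.log x ^ (Fintype.card (Fin m × Fin s) ^ 2) := by
      have h5 := Real.rpow_natCast (Real.log x) (Fintype.card (Fin m × Fin s) ^ 2)
      rw [Nat.cast_pow] at h5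
      exact h5
    rw [h4]
    refine h1.trans (mul_le_mul hxR (h2.trans h3) (Nat.cast_nonneg _) hl0.le)
  have hsum := hx4 (dd v) (by rw [← hW]; exact hWle) v hcop
  rw [hcard, ← hW] at hsum
  have hnm : 0 < nm x a W (m * s) := hx3 W hWpos hWpr
  have hone : ∀ b ∈ GR R (dd v) v, 1 / 400 / C2 * nm x a W (m * s) ≤
      ∑ N ∈ (Tx x).filter (fun N => (∀ i, Rgh (x ^ a) (N + v i)) ∧
              1 < wc wt v N), if N % W = b then gw x N else 0 := by
    intro b hb
    rw [mem_GR, ← hW] at hb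
    obtain ⟨hbW, hbR, hbc⟩ := hb
    obtain ⟨-, μ, h0, h1, h2, h3, h4⟩ := hx1 (fun j => univ.image (fun l : Fin s => v (j, l))) W b
      (by
        refine ⟨?_, ?_, ?_, hWpos, hWpr, hWle, ?_, ?_⟩
        · intro i j hij
          rw [disjoint_left]
          intro y hy hy'
          rw [mem_image] at hy hy'
          obtain ⟨l, _, hl⟩ := hy
          obtain ⟨l', _, hl'⟩ := hy'
          have := hvinj (hl.trans hl'.symm)
          exact hij (Prod.ext_iff.1 this).1
        · intro j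
          rw [card_image_of_injective, card_univ, Fintype.card_fin]
          intro l l' hll
          exact (Prod.ext_iff.1 (hvinj hll)).2
        · intro j y hy
          obtain ⟨l, -, rfl⟩ := mem_image.1 hy
          have h5 : ((v (j, l) : ℕ) : ℝ) ≤ L := by exact_mod_cast hvL _
          refine (h5.trans hLx).trans ?_
          calc Real.log x = Real.log x ^ (1 : ℝ) := (Real.rpow_one _).symm
            _ ≤ Real.log x ^ A' := Real.rpow_le_rpow_of_exponent_le hxl hA'1
        · intro j j' y hy z hz hyz p hp hpd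
          obtain ⟨l, -, rfl⟩ := mem_image.1 hy
          obtain ⟨l', -, rfl⟩ := mem_image.1 hz
          have hij : (j, l) ≠ (j', l') := by
            intro h
            exact hyz (congrArg v h)
          rw [hW]
          apply wr_dvd hD hp
          refine dvd_trans ?_ (dvd_dd v hij)
          exact Int.natCast_dvd.1 hpd
        · intro j y hy
          obtain ⟨l, -, rfl⟩ := mem_image.1 hy
          exact hbc _)
    have hres := ob_one1 (a := a) hwt hwt1 hC2 hnm v (b := b) (fun N => if N ∈ Tx x then μ N else 0)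
      (fun N => by
        split_ifs
        · exact h0 N
        · exact le_rfl)
      (by
        intro N hN
        have hT : N ∈ Tx x := by
          by_contra hno
          exact hN (if_neg hno)
        rw [if_pos hT] at hN
        obtain ⟨h5, h6⟩ := h2 N hT hN
        refine ⟨h5, fun i p hp hpN => h6 i.1 (v i) ?_ p hp hpN⟩
        exact mem_image_of_mem (fun l => v (i.1, l)) (mem_univ i.2))
      (by
        intro N
        split_ifs with hT
        · exact h1 N hT
        · have := (gw_pos x N).le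
          positivity)
      (by
        rw [← h3]
        exact sum_congr rfl fun N hN => if_pos hN)
      (by
        intro j
        refine (h4 j (Classical.decPred _)).trans (le_of_eq ?_)
        refine sum_congr ?_ ?_
        · ext N
          rw [mem_filter, mem_filter]
          refine and_congr_right fun _ => ?_
          constructor
          · rintro ⟨y, ⟨hy1, hy2⟩, hy3⟩
            obtain ⟨l, -, rfl⟩ := mem_image.1 hy1
            refine ⟨l, hy2, fun l' hl' => ?_⟩
            have h5 := hy3 (v (j, l')) ⟨mem_image_of_mem (fun l => v (j, l)) (mem_univ l'), hl'⟩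
            exact (Prod.ext_iff.1 (hvinj h5)).2
          · rintro ⟨l, hl1, hl2⟩
            refine ⟨v (j, l), ⟨mem_image_of_mem (fun l => v (j, l)) (mem_univ l), hl1⟩, ?_⟩
            rintro y ⟨hy1, hy2⟩
            obtain ⟨l', -, rfl⟩ := mem_image.1 hy1
            have h5 := hl2 l' hy2
            rw [h5]
        · intro N hN
          exact (if_pos (mem_filter.1 hN).1).symm)
    rw [Nat.mod_eq_of_lt hbW] at hres
    exact hres
  calc 1 / 400 / C2 * c * x / Real.log x ^ (m * s) = 1 / 400 / C2 * (c * x / Real.log x ^ (m * s)) := by ring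
    _ ≤ 1 / 400 / C2 * ∑ _b ∈ GR R (dd v) v, nm x a W (m * s) := by
        refine mul_le_mul_of_nonneg_left hsum (by positivity)
    _ = ∑ _b ∈ GR R (dd v) v, 1 / 400 / C2 * nm x a W (m * s) := by rw [mul_sum]
    _ ≤ ∑ b ∈ GR R (dd v) v, ∑ N ∈ (Tx x).filter (fun N => (∀ i, Rgh (x ^ a) (N + v i)) ∧
              1 < wc wt v N), (if N % W = b then gw x N else 0) :=
        sum_le_sum hone
    _ ≤ _ := by
        rw [sum_comm]
        rw [sum_filter, sum_filter]
        refine sum_le_sum fun N _ => ?_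
        by_cases hN : (∀ i, Rgh (x ^ a) (N + v i)) ∧ 1 < wc wt v N
        · rw [if_pos hN, sum_ite_eq]
          by_cases hb : N % W ∈ GR R (dd v) v
          · rw [if_pos hb]
            rw [mem_GR, ← hW] at hb
            have hRN : R ∣ N := by
              have h1 : R ∣ W := by rw [hW]; exact wr_dvd_R _ _
              exact (Nat.dvd_mod_iff h1).1 hb.2.1
            rw [if_pos ⟨hRN, hN⟩]
          · rw [if_neg hb]
            split_ifs
            · exact (gw_pos x N).le
            · exact le_rfl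
        · rw [if_neg hN, if_neg (fun h => hN h.2)]

end Pool.Agent.H34.RR
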