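import Pool.Agent.H92.MM.Ls
import Pool.Agent.H92.UM.Ls

/-!
# [H34 RR MOM] (M2) One light block: exactly one prime with probability `≥ 1/80`

As `block_step` (H92/UM/Ls).  `μ = ω sg^2/z`, `g y = G(N + y) r0`.  `q y = E_μ g y`:
* `co_lo`, `co_zup`: `q y ≥ (1-2ε)/(1+ε/400) E AA ≥ 98/100 * E AA`;
* `fa_up` (with `Φ = G(N + y)`, `rp ≥ r0`, `G ≥ 0`) and `fa_z`: `q y ≤ 104/100 * E AA` (`κ ≤ Δ AA`, `Δ`, `ε` small: here
  `ε ≤ 1/1000`, `hG.hΔ : 100 C^2 Δ ≤ ε c^2`);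
* `co_primeC`: `μ(N + y prime) ≥ (1-10ε) cc q y`;
* `co_pair` and `1_prime(N+y) ≤ g y N`: `μ(N+y, N+y' both prime) ≤ (1+10ε) q y q y'`.
Let `X = #{y ∈ V : N + y prime}`: `1_{X = 1} ≥ X - X(X-1)` (natural numbers), so
`μ(X = 1) ≥ ∑_y μ(y prime) - ∑_{y ≠ y'} μ(both) ≥ (99/100)(13/50)(98/100)(119/1000) - (101/100)(104/100)^2 (12/100)^2
≥ .0300 - .0158 ≥ 1/80`.
-/

set_option autoImplicit false

namespace Pool.Agent.H34.RR

open Finset Filter Pool.Agent.H21.MT Pool.Agent.H92.MM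

section

variable {ι : Type} [Fintype ι] [DecidableEq ι] {L : ℕ}
  {l b : ℕ} {bi : Fin L → ℕ} {a B η ϖ ε Δ κ : ℝ} {T : Finset ℕ} {ω : ℕ → ℝ}
  {m : ι → Fin L → ℕ → ℕ} {c C E : ℝ} {F : ι → ℕ → ℝ}

omit [DecidableEq ι] in
private theorem mo_par (hS : St (Fintype.card ι) L l b bi a B η ϖ ε Δ κ)
    (hκ : 4 * κ ≤ Δ * (1 / 4) ^ L) : 1 ≤ bn b l ^ Fintype.card ι ∧ 0 < AA b l L ∧
      κ ≤ Δ / 4 ∧ κ ≤ Δ * (bn b l ^ Fintype.card ι * AA b l L) := by
  have hn1 := bn_ge hS.hb hS.ht l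
  have hn2 := bn_le hS.hb hS.ht l
  have hS1 := bS_ge hS.hb hS.ht l
  have hl0 : (0 : ℝ) ≤ l := Nat.cast_nonneg l
  have hK1 : 1 ≤ bn b l ^ Fintype.card ι := one_le_pow₀ hn1
  have hΔ0 := hS.hΔ0
  have hp4 : ((1 : ℝ) / 4) ^ L ≤ 1 := pow_le_one₀ (by norm_num) (by norm_num)
  have hp2 : (0 : ℝ) < (1 / 2) ^ L := by positivity
  have hp42 : ((1 : ℝ) / 4) ^ L ≤ (1 / 2) ^ L := pow_le_pow_left₀ (by norm_num) (by norm_num) L
  have hA : (1 / 2) ^ L / 2 ≤ AA b l L := by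
    unfold AA
    rw [div_le_div_iff₀ (by norm_num) (by linarith)]
    have h1 : 1 ≤ bS b l ^ 2 := one_le_pow₀ (by linarith)
    have h2 : (1 / 2 : ℝ) ^ L * bn b l ≤ (1 / 2) ^ L * 2 := mul_le_mul_of_nonneg_left hn2 hp2.le
    have h3 : (1 / 2 : ℝ) ^ L * 1 ≤ (1 / 2) ^ L * bS b l ^ 2 := mul_le_mul_of_nonneg_left h1 hp2.le
    linarith
  have hA0 : 0 < AA b l L := by linarith
  have h1 : Δ * (1 / 4) ^ L ≤ Δ * 1 := mul_le_mul_of_nonneg_left hp4 hΔ0.le
  have h2 : Δ * (1 / 4) ^ L ≤ Δ * (1 / 2) ^ L := mul_le_mul_of_nonneg_left hp42 hΔ0.le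
  have h3 : Δ * ((1 / 2) ^ L / 2) ≤ Δ * AA b l L := mul_le_mul_of_nonneg_left hA hΔ0.le
  have h4 : AA b l L ≤ bn b l ^ Fintype.card ι * AA b l L := by
    have := mul_le_mul_of_nonneg_right hK1 hA0.le
    linarith
  have h5 : Δ * AA b l L ≤ Δ * (bn b l ^ Fintype.card ι * AA b l L) :=
    mul_le_mul_of_nonneg_left h4 hΔ0.le
  have h6 : 0 < Δ * AA b l L := mul_pos hΔ0 hA0
  exact ⟨hK1, hA0, by linarith, by linarith⟩

/-- the mean of the majorant is `E AA` up to `2` per cent -/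
theorem mo_mean [Nonempty ι] (hS : St (Fintype.card ι) L l b bi a B η ϖ ε Δ κ)
    (hω : ∀ N, 0 ≤ ω N) (h1 : AppT T ω m a η ϖ (fun _ => 1) 1)
    (hL : Lg T ω m a η ϖ ε Δ κ c C F E) (hε3 : ε ≤ 1 / 1000) (x : ι) (hF : ∀ N ∈ T, 0 ≤ F x N) :
    99 / 100 * (E * AA b l L) ≤ emu b l B T ω m (fun N => F x N * r0 m x N) ∧
      emu b l B T ω m (fun N => F x N * r0 m x N) ≤ 102 / 100 * (E * AA b l L) := by
  obtain ⟨hK1, hA0, hk1, hk2⟩ := mo_par (ι := ι) hS hL.hκ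
  have hz := co_z hS h1 hL.hκ
  have hzu := co_zup hS h1 hL
  have hzl := (fa_z hS h1).1
  have hlo := co_lo hS hω h1 hL x
  have hε := hS.hε
  have hΔ0 := hS.hΔ0
  have hc0 := hL.c0
  have hc1 := hL.c1
  have hC1 := hL.C1
  have hcE := hL.lo
  have hE : 0 < E := by linarith
  have hΔs : 100 * Δ ≤ ε * c := by
    have h2 := hL.hΔ
    have h3 : c ^ 2 ≤ c := by nlinarith
    have h4 : ε * c ^ 2 ≤ ε * c := mul_le_mul_of_nonneg_left h3 hε.le
    have h5 : Δ ≤ C ^ 2 * Δ := le_mul_of_one_le_left hΔ0.le (one_le_pow₀ hC1)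
    linarith
  have hup := (fa_up hS hE.le (hL.one x) x).2
  obtain ⟨n, hn⟩ : ∃ n, n = bn b l ^ Fintype.card ι := ⟨_, rfl⟩
  obtain ⟨A, hA⟩ : ∃ A, A = AA b l L := ⟨_, rfl⟩
  obtain ⟨z, hzd⟩ : ∃ z : ℝ, z = AvT T ω (fun N => sg b l B m N ^ 2) := ⟨_, rfl⟩
  rw [← hn, ← hA] at hlo hup hk2
  rw [← hn] at hzu hzl hK1
  rw [← hA] at hA0
  rw [← hzd] at hz hzu hzl
  unfold emu
  rw [← hzd, ← hA]
  have hn0 : 0 < n := by linarith
  have hnA : 0 < n * A := mul_pos hn0 hA0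
  constructor
  · rw [le_div_iff₀ hz]
    refine le_trans ?_ hlo
    have h2 : 99 / 100 * (E * A) * z ≤ 99 / 100 * (E * A) * (n * (1 + ε / 400)) :=
      mul_le_mul_of_nonneg_left hzu (by positivity)
    refine h2.trans ?_
    have h3 : 99 / 100 * (1 + ε / 400) ≤ 1 - 2 * ε := by linarith
    have h4 := mul_le_mul_of_nonneg_left h3 (show 0 ≤ n * A * E by positivity)
    linarith
  · rw [div_le_iff₀ hz]
    have h2 : AvT T ω (fun N => sg b l B m N ^ 2 * (F x N * r0 m x N)) ≤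
        AvT T ω (fun N => sg b l B m N ^ 2 * rp bi m x N * F x N) := by
      unfold AvT
      refine sum_le_sum fun N hN => ?_
      apply mul_le_mul_of_nonneg_left _ (hω N)
      have h3 := r0_le_rp (m := m) hS.hbi x N
      have h4 := hF N hN
      have h5 : 0 ≤ sg b l B m N ^ 2 := sq_nonneg _
      calc sg b l B m N ^ 2 * (F x N * r0 m x N) ≤ sg b l B m N ^ 2 * (F x N * rp bi m x N) :=
            mul_le_mul_of_nonneg_left (mul_le_mul_of_nonneg_left h3 h4) h5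
        _ = sg b l B m N ^ 2 * rp bi m x N * F x N := by ring
    refine h2.trans (hup.trans ?_)
    -- `κ ≤ ε/100 E n A`
    have h6 : κ ≤ 1 / 1000 * (E * (n * A)) := by
      have h7 : Δ * (n * A) ≤ 1 / 1000 * E * (n * A) := by
        apply mul_le_mul_of_nonneg_right _ hnA.le
        nlinarith
      linarith
    have hΔ1 : Δ ≤ 1 / 1000 := by nlinarith
    have h8 : (1 + Δ) * E * (n * A) ≤ (1 + 1 / 1000) * E * (n * A) := by gcongr
    have h9 : 998 / 1000 * n ≤ z := by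
      have h10 : κ ≤ 1 / 1000 * n := by nlinarith
      have h11 : (1 - ε) * n ≥ (1 - 1 / 1000) * n :=
        mul_le_mul_of_nonneg_right (by linarith) hn0.le
      linarith
    have h12 : 102 / 100 * (E * A) * (998 / 1000 * n) ≤ 102 / 100 * (E * A) * z :=
      mul_le_mul_of_nonneg_left h9 (by positivity)
    have h13 : 0 < E * (n * A) := by positivity
    nlinarith

end

open Classical in
private theorem one_point (V : Finset ℕ) (N : ℕ) :
    (∑ y ∈ V, if (N + y).Prime then (1 : ℝ) else 0) -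
      ∑ p ∈ V.offDiag, (if (N + p.1).Prime ∧ (N + p.2).Prime then (1 : ℝ) else 0) ≤
      if (∃! y, y ∈ V ∧ (N + y).Prime) then 1 else 0 := by
  obtain ⟨S, hS⟩ : ∃ S, S = V.filter (fun y => (N + y).Prime) := ⟨_, rfl⟩
  have h1 : (∑ y ∈ V, if (N + y).Prime then (1 : ℝ) else 0) = S.card := by
    rw [hS, sum_boole]
  have h2 : ∑ p ∈ V.offDiag, (if (N + p.1).Prime ∧ (N + p.2).Prime then (1 : ℝ) else 0) =
      (S.offDiag.card : ℝ) := by
    rw [sum_boole]
    congr 2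
    ext p
    rw [mem_filter, mem_offDiag, mem_offDiag, hS, mem_filter, mem_filter]
    tauto
  rw [h1, h2, offDiag_card]
  have h3 : S.card ≤ S.card * S.card := Nat.le_mul_self _
  rw [Nat.cast_sub h3, Nat.cast_mul]
  by_cases hX : S.card = 1
  · obtain ⟨y, hy⟩ := card_eq_one.1 hX
    have h4 : ∃! y, y ∈ V ∧ (N + y).Prime := by
      refine ⟨y, ?_, fun y' hy' => ?_⟩
      · have : y ∈ S := by rw [hy]; exact mem_singleton_self y
        rw [hS, mem_filter] at this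
        exact this
      · have : y' ∈ S := by
          rw [hS, mem_filter]
          exact hy'
        rw [hy, mem_singleton] at this
        exact this
    rw [if_pos h4, hX]
    norm_num
  · have h5 : (S.card : ℝ) - ((S.card : ℝ) * S.card - S.card) ≤ 0 := by
      rcases Nat.lt_or_ge S.card 1 with h6 | h6
      · have : S.card = 0 := by omega
        rw [this]
        norm_num
      · have h7 : 2 ≤ S.card := by omega
        have h8 : (2 : ℝ) ≤ S.card := by exact_mod_cast h7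
        nlinarith
    refine h5.trans ?_
    split_ifs <;> norm_num

open Classical in
theorem one_step {ι : Type} [Fintype ι] [DecidableEq ι] [Nonempty ι] (h : ι → ℕ) (idx : ℕ → ι)
    (T : Finset ℕ) (ω : ℕ → ℝ) {L l b : ℕ} {bi : Fin L → ℕ} {a B η ϖ ε Δ κ : ℝ}
    (m : ι → Fin L → ℕ → ℕ) (hS : St (Fintype.card ι) L l b bi a B η ϖ ε Δ κ)
    (hω : ∀ N, 0 ≤ ω N) (h1 : AppT T ω m a η ϖ (fun _ => 1) 1)
    (G : ℕ → ℝ) {EG c C : ℝ} (hG : Lg T ω m a η ϖ ε Δ κ c C (fun x N => G (N + h x)) EG)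
    (hG0 : ∀ n, 0 ≤ G n)
    (hprime : ∀ x : ι, ∀ N ∈ T, (N + h x).Prime → (∀ i, m x i N = 0) ∧ 1 ≤ G (N + h x)) {pr : ℝ}
    (hlaw : ∀ x : ι, ∀ A : ι → Fin L → ℕ, (∀ i, A x i = 0) → sl a L A ≤ η →
      |AvT T ω (fun N => mon m A N * (if (N + h x).Prime then 1 else 0)) - sv L A * pr| ≤ ϖ)
    (hpr : 13 / 50 * EG ≤ (1 + ε) ^ 2 * (2 ^ L * pr)) (hε3 : ε ≤ 1 / 1000)
    (V : Finset ℕ) (hV : ∀ y ∈ V, h (idx y) = y)
    (hlo : 119 / 1000 ≤ V.card * (EG * AA b l L)) (hup : V.card * (EG * AA b l L) ≤ 12 / 100) :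
    1 / 80 ≤ ∑ N ∈ T.filter (fun N => ∃! y, y ∈ V ∧ (N + y).Prime),
        ω N * sg b l B m N ^ 2 / AvT T ω (fun N => sg b l B m N ^ 2) := by
  have hz : 0 < AvT T ω (fun N => sg b l B m N ^ 2) := co_z hS h1 hG.hκ
  have hε := hS.hε
  obtain ⟨μ, hμd⟩ : ∃ μ : ℕ → ℝ, μ = fun N => ω N * sg b l B m N ^ 2 /
    AvT T ω (fun N => sg b l B m N ^ 2) := ⟨_, rfl⟩
  obtain ⟨g, hg⟩ : ∃ g : ℕ → ℕ → ℝ, g = fun y N => G (N + y) * r0 m (idx y) N := ⟨_, rfl⟩
  have hgy : ∀ y ∈ V, g y = fun N => (fun x N => G (N + h x)) (idx y) N * r0 m (idx y) N := by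
    intro y hy
    rw [hg]
    funext N
    show G (N + y) * r0 m (idx y) N = G (N + h (idx y)) * r0 m (idx y) N
    rw [hV y hy]
  have hμ0 : ∀ N, 0 ≤ μ N := by
    intro N
    rw [hμd]
    have := hω N
    positivity
  have hEx : ∀ f : ℕ → ℝ, Pool.Agent.H21.CP.Ex T μ f = emu b l B T ω m f := by
    intro f
    rw [hμd]
    exact ex_emu b l B T ω m f
  obtain ⟨q, hq⟩ : ∃ q : ℕ → ℝ, q = fun y => Pool.Agent.H21.CP.Ex T μ (g y) := ⟨_, rfl⟩
  have hqb : ∀ y ∈ V, 99 / 100 * (EG * AA b l L) ≤ q y ∧ q y ≤ 102 / 100 * (EG * AA b l L) := by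
    intro y hy
    rw [hq]
    show _ ≤ Pool.Agent.H21.CP.Ex T μ (g y) ∧ Pool.Agent.H21.CP.Ex T μ (g y) ≤ _
    rw [hEx, hgy y hy]
    exact mo_mean hS hω h1 hG hε3 (idx y) (fun N _ => hG0 _)
  have hEA : 0 ≤ EG * AA b l L := by
    have h2 := AA_nonneg hS.hb hS.ht l L
    have h3 := hG.c0
    have h4 := hG.lo
    exact mul_nonneg (by linarith) h2
  have hq0 : ∀ y ∈ V, 0 ≤ q y := fun y hy => by linarith [(hqb y hy).1]
  have hgp : ∀ y ∈ V, ∀ N ∈ T, 0 ≤ g y N ∧ ((N + y).Prime → 1 ≤ g y N) := by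
    intro y hy N hN
    rw [hg]
    refine ⟨mul_nonneg (hG0 _) (r0_nonneg _ _), fun hp => ?_⟩
    have h2 := hprime (idx y) N hN (by rw [hV y hy]; exact hp)
    rw [hV y hy] at h2
    show 1 ≤ G (N + y) * r0 m (idx y) N
    rw [r0, if_pos h2.1, mul_one]
    exact h2.2
  -- one prime
  have hpp : ∀ y ∈ V, 99 / 100 * (13 / 50) * q y ≤
      ∑ N ∈ T, μ N * (if (N + y).Prime then (1 : ℝ) else 0) := by
    intro y hy
    have h10 := co_primeC hS hω h1 hG (idx y) (fun N _ => hG0 _)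
      (fun N => (N + y).Prime) (pr := pr)
      (fun N hN hp => (hprime (idx y) N hN (by rw [hV y hy]; exact hp)).1)
      (fun A hA hA2 => by
        have h11 := hlaw (idx y) A hA hA2
        rw [hV y hy] at h11
        refine le_trans (le_of_eq ?_) h11
        congr 3
        funext N
        congr) (cc := 13 / 50) (by norm_num) (by norm_num) hpr
    have h12 : ∑ N ∈ T, μ N * (if (N + y).Prime then (1 : ℝ) else 0) =
        emu b l B T ω m (fun N => if (N + y).Prime then 1 else 0) := by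
      rw [← hEx, Pool.Agent.H21.CP.Ex]
    have h13 : 99 / 100 * (13 / 50) ≤ (1 - 10 * ε) * (13 / 50) := by linarith
    rw [h12]
    refine (mul_le_mul_of_nonneg_right h13 (hq0 y hy)).trans ?_
    rw [hq]
    show (1 - 10 * ε) * (13 / 50) * Pool.Agent.H21.CP.Ex T μ (g y) ≤ _
    rw [hEx, hgy y hy]
    refine h10.trans (le_of_eq ?_)
    congr 1
    funext N
    congr
  -- two primes
  have hp2 : ∀ y ∈ V, ∀ y' ∈ V, y ≠ y' →
      ∑ N ∈ T, μ N * (if (N + y).Prime ∧ (N + y').Prime then (1 : ℝ) else 0) ≤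
        101 / 100 * (q y * q y') := by
    intro y hy y' hy' hyy
    have hne : idx y ≠ idx y' := by
      intro h2
      apply hyy
      rw [← hV y hy, ← hV y' hy', h2]
    have h3 := co_pair hS hω h1 hG hne
    have h4 : ∑ N ∈ T, μ N * (if (N + y).Prime ∧ (N + y').Prime then (1 : ℝ) else 0) ≤
        Pool.Agent.H21.CP.Ex T μ (fun N => g y N * g y' N) := by
      unfold Pool.Agent.H21.CP.Ex
      refine sum_le_sum fun N hN => ?_
      apply mul_le_mul_of_nonneg_left _ (hμ0 N)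
      obtain ⟨a1, a2⟩ := hgp y hy N hN
      obtain ⟨b1, b2⟩ := hgp y' hy' N hN
      split_ifs with hc
      · have := a2 hc.1
        have := b2 hc.2
        nlinarith
      · exact mul_nonneg a1 b1
    refine h4.trans ?_
    rw [hEx]
    have h5 : (fun N => g y N * g y' N) = fun N =>
        ((fun x N => G (N + h x)) (idx y) N * r0 m (idx y) N) *
          ((fun x N => G (N + h x)) (idx y') N * r0 m (idx y') N) := by
      funext N
      rw [hgy y hy, hgy y' hy']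
    rw [h5]
    refine h3.trans ?_
    have h6 : emu b l B T ω m (fun N => (fun x N => G (N + h x)) (idx y) N * r0 m (idx y) N) =
        q y := by
      rw [hq]
      show _ = Pool.Agent.H21.CP.Ex T μ (g y)
      rw [hEx, hgy y hy]
    have h7 : emu b l B T ω m (fun N => (fun x N => G (N + h x)) (idx y') N * r0 m (idx y') N) =
        q y' := by
      rw [hq]
      show _ = Pool.Agent.H21.CP.Ex T μ (g y')
      rw [hEx, hgy y' hy']
    rw [h6, h7]
    apply mul_le_mul_of_nonneg_right (by linarith)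
    exact mul_nonneg (hq0 y hy) (hq0 y' hy')
  -- the sum
  have hsum : ∑ N ∈ T, μ N * ((∑ y ∈ V, if (N + y).Prime then (1 : ℝ) else 0) -
      ∑ p ∈ V.offDiag, (if (N + p.1).Prime ∧ (N + p.2).Prime then (1 : ℝ) else 0)) ≤
      ∑ N ∈ T.filter (fun N => ∃! y, y ∈ V ∧ (N + y).Prime), μ N := by
    rw [sum_filter]
    refine sum_le_sum fun N _ => ?_
    refine (mul_le_mul_of_nonneg_left (one_point V N) (hμ0 N)).trans (le_of_eq ?_)
    split_ifs <;> ring
  have hfin : 1 / 80 ≤ ∑ N ∈ T.filter (fun N => ∃! y, y ∈ V ∧ (N + y).Prime), μ N := by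
    refine le_trans ?_ hsum
    have h2 : ∑ N ∈ T, μ N * ((∑ y ∈ V, if (N + y).Prime then (1 : ℝ) else 0) -
      ∑ p ∈ V.offDiag, (if (N + p.1).Prime ∧ (N + p.2).Prime then (1 : ℝ) else 0)) =
      ∑ y ∈ V, ∑ N ∈ T, μ N * (if (N + y).Prime then (1 : ℝ) else 0) -
        ∑ p ∈ V.offDiag, ∑ N ∈ T, μ N *
          (if (N + p.1).Prime ∧ (N + p.2).Prime then (1 : ℝ) else 0) := by
      rw [sum_comm (s := V), sum_comm (s := V.offDiag), ← sum_sub_distrib]
      refine sum_congr rfl fun N _ => ?_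
      rw [mul_sub, mul_sum, mul_sum]
    rw [h2]
    have h3 : 99 / 100 * (13 / 50) * ∑ y ∈ V, q y ≤
        ∑ y ∈ V, ∑ N ∈ T, μ N * (if (N + y).Prime then (1 : ℝ) else 0) := by
      rw [mul_sum]
      exact sum_le_sum hpp
    have h4 : ∑ p ∈ V.offDiag, ∑ N ∈ T, μ N *
          (if (N + p.1).Prime ∧ (N + p.2).Prime then (1 : ℝ) else 0) ≤
        101 / 100 * (∑ y ∈ V, q y) ^ 2 := by
      have h5 : ∑ p ∈ V.offDiag, ∑ N ∈ T, μ N *
          (if (N + p.1).Prime ∧ (N + p.2).Prime then (1 : ℝ) else 0) ≤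
          ∑ p ∈ V.offDiag, 101 / 100 * (q p.1 * q p.2) := by
        refine sum_le_sum fun p hp => ?_
        rw [mem_offDiag] at hp
        exact hp2 p.1 hp.1 p.2 hp.2.1 hp.2.2
      refine h5.trans ?_
      rw [← mul_sum, sq, sum_mul_sum, ← sum_product']
      apply mul_le_mul_of_nonneg_left _ (by norm_num)
      apply sum_le_sum_of_subset_of_nonneg
      · intro p hp
        rw [mem_offDiag] at hp
        exact mem_product.2 ⟨hp.1, hp.2.1⟩
      · intro p hp _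
        rw [mem_product] at hp
        exact mul_nonneg (hq0 _ hp.1) (hq0 _ hp.2)
    have h6 : 99 / 100 * (V.card * (EG * AA b l L)) ≤ ∑ y ∈ V, q y := by
      have h7 : ∑ _y ∈ V, 99 / 100 * (EG * AA b l L) ≤ ∑ y ∈ V, q y :=
        sum_le_sum fun y hy => (hqb y hy).1
      rw [sum_const, nsmul_eq_mul] at h7
      linarith
    have h8 : ∑ y ∈ V, q y ≤ 102 / 100 * (V.card * (EG * AA b l L)) := by
      have h7 : ∑ y ∈ V, q y ≤ ∑ _y ∈ V, 102 / 100 * (EG * AA b l L) :=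
        sum_le_sum fun y hy => (hqb y hy).2
      rw [sum_const, nsmul_eq_mul] at h7
      linarith
    have h9 : 117 / 1000 ≤ ∑ y ∈ V, q y := by linarith
    have h10 : ∑ y ∈ V, q y ≤ 1224 / 10000 := by linarith
    have h11 : (∑ y ∈ V, q y) ^ 2 ≤ (1224 / 10000) ^ 2 :=
      pow_le_pow_left₀ (by linarith) h10 2
    linarith
  refine hfin.trans (le_of_eq ?_)
  rw [hμd]

end Pool.Agent.H34.RR
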