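import Pool.Agent.H34.RR.Ob
import Pool.Agent.H34.RR.Bx
import Pool.Agent.H79.LS.Tb
import Pool.Agent.H96.WP.Mq

/-!
# [H34 RR MQ] (B3) The number of `N` with a good family of positions (from H96/WP/Mq)

`lam0` does not depend on the intervals: the families with one more rough site are counted by `totalB` (box version of
`total`) and `#BXI ≥ (1/(4 s R))^(m s) ∏_d ((be d - al d) H)^s`.
-/

set_option autoImplicit false

namespace Pool.Agent.H34.RR

open Finset Filter Pool.Agent.H21.MT Pool.Agent.H92.MM Pool.Agent.H61.UN Pool.Agent.H96.WP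

/-- `N ≡ 0 (mod R)`, the primes `N + y`, `0 ≤ y ≤ H`, are among the `N + u i`, heavy blocks contain exactly one prime -/
def Gd1 (m s R ρ : ℕ) (w al be : Fin m → ℝ) (H : ℝ) (N : ℕ) : Prop :=
  R ∣ N ∧ ∃ u ∈ BXI m s R ρ al be H,
    1 < wc (fun d => w d) (fun q : Fin m × Fin s => u (finProdFinEquiv q)) N ∧
    ∀ y : ℕ, (y : ℝ) ≤ H → (N + y).Prime → ∃ i, u i = y

/-- a family with one more rough site -/
private theorem extraI {ι : Type} [Fintype ι] [DecidableEq ι] (x a : ℝ) (L N : ℕ) (B : Finset (ι → ℕ))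
    (I : Option ι → Finset ℕ) (hI : I none = Icc 0 L)
    (hB : ∀ v ∈ B, v ∈ IJ ι L ∧ (∀ i, Rgh (x ^ a) (N + v i)) ∧ (∀ i, v i ∈ I (some i)) ∧
      ∃ y ≤ L, (∀ i, v i ≠ y) ∧ Rgh (x ^ a) (N + y)) :
    B.card ≤ ((RJ (Option ι) x a L N).filter (fun h => ∀ j, h j ∈ I j)).card := by
  classical
  have hch : ∀ v : ι → ℕ, ∃ y : ℕ, v ∈ B → (y ≤ L ∧ (∀ i, v i ≠ y) ∧ Rgh (x ^ a) (N + y)) := by
    intro v
    by_cases hv : v ∈ B
    · obtain ⟨y, h1, h2, h3⟩ := (hB v hv).2.2.2
      exact ⟨y, fun _ => ⟨h1, h2, h3⟩⟩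
    · exact ⟨0, fun h => absurd h hv⟩
  choose g hg using hch
  refine card_le_card_of_injOn (fun v => (fun o : Option ι => o.elim (g v) v)) ?_ ?_
  · intro v hv
    have hv' : v ∈ B := hv
    obtain ⟨h1, h2, h3, -⟩ := hB v hv'
    obtain ⟨h4, h5, h6⟩ := hg v hv'
    rw [mem_IJ] at h1
    show (fun o : Option ι => o.elim (g v) v) ∈
      (RJ (Option ι) x a L N).filter (fun h => ∀ j, h j ∈ I j)
    rw [mem_filter, mem_RJ]
    refine ⟨⟨⟨?_, ?_⟩, ?_⟩, ?_⟩
    · rintro (_ | i)
      · exact h4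
      · exact h1.1 i
    · rintro (_ | i) (_ | j) hij
      · rfl
      · exact absurd hij.symm (h5 j)
      · exact absurd hij (h5 i)
      · exact congrArg some (h1.2 hij)
    · rintro (_ | i)
      · exact h6
      · exact h2 i
    · rintro (_ | i)
      · rw [hI, mem_Icc]
        exact ⟨Nat.zero_le _, h4⟩
      · exact h3 i
  · intro v _ v' _ hvv
    funext i
    exact congrFun hvv (some i)

open Classical in
theorem good_count1 (m : ℕ) (hm : 1 ≤ m) :
    ∃ (s wd : ℕ), 1 ≤ s ∧ ∀ w : Fin m → ℝ, (∀ d, 0 ≤ w d) → 100 ≤ ∑ d, w d →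
      ∀ R : ℕ, 0 < R → primorial wd ∣ R → ∃ lam0 : ℝ, 0 < lam0 ∧ lam0 ≤ 1 ∧
        ∀ al be : Fin m → ℝ, (∀ d, 0 < al d ∧ al d < be d ∧ be d < 1) →
          (∀ d d', d < d' → be d < al d') → ∀ lam : ℝ, 0 < lam → lam ≤ lam0 →
            ∃ δ T : ℝ, 0 < δ ∧ 1 ≤ T ∧ ∀ᶠ x : ℝ in atTop, ∀ ρ : ℕ, Nat.Coprime ρ R →
              δ * x ≤ (((Tx x).filter (fun N : ℕ => (N : ℝ) ≤ T * x ∧
                Gd1 m s R ρ w al be (lam * Real.log x) N)).card : ℝ) := by
  obtain ⟨s, a, wd, hs, ha, ha1, hob⟩ := box_class1 m hm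
  refine ⟨s, wd, hs, ?_⟩
  intro w hw hw100 R hR hRw
  obtain ⟨c0, hc0, hob⟩ := hob w hw hw100 R hR hRw
  have hn0 : 0 < m * s := Nat.mul_pos (by omega) (by omega)
  have hsr : (0 : ℝ) < s := by exact_mod_cast hs
  have hRr : (0 : ℝ) < R := by exact_mod_cast hR
  obtain ⟨cR, hcRd⟩ : ∃ cR : ℝ, cR = (1 / (4 * (s : ℝ) * R)) ^ (m * s) := ⟨_, rfl⟩
  have hcR : 0 < cR := by rw [hcRd]; positivity
  have hne : Nonempty (Fin (m * s)) := ⟨⟨0, hn0⟩⟩
  have hcard : Fintype.card (Fin (m * s)) = m * s := Fintype.card_fin _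
  have hcardO : Fintype.card (Option (Fin (m * s))) = m * s + 1 := by
    rw [Fintype.card_option, hcard]
  obtain ⟨Ct, hCt, htail⟩ := tail (Fin (m * s)) a ha
  obtain ⟨Co, hCo, htot⟩ := Pool.Agent.H79.LS.totalB (Option (Fin (m * s))) a ha
  rw [hcard] at htail
  rw [hcardO] at htot
  refine ⟨min 1 (c0 * cR / (4 * Co * 2 ^ (m * s + 1))), by positivity, min_le_left _ _, ?_⟩
  intro al be hI hlt lam hlam hlam1
  obtain ⟨Dd, hDd⟩ : ∃ Dd : ℝ, Dd = ∏ d, (be d - al d) ^ s := ⟨_, rfl⟩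
  have hDd0 : 0 < Dd := by
    rw [hDd]
    refine prod_pos fun d _ => pow_pos ?_ _
    linarith [(hI d).2.1]
  have hlam2 : lam ≤ 1 := hlam1.trans (min_le_left _ _)
  have hlam3 : Co * 2 ^ (m * s + 1) * lam ≤ c0 / 4 * cR := by
    have h1 := hlam1.trans (min_le_right _ _)
    rw [le_div_iff₀ (by positivity)] at h1
    nlinarith
  obtain ⟨H0, hH0, hbx⟩ := bxi_card m s R hm hs hR al be hI hlt
  -- the intervals are long
  obtain ⟨g, hg0, hg⟩ : ∃ g : ℝ, 0 < g ∧ ∀ d, g ≤ be d - al d := by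
    have hne' : Nonempty (Fin m) := ⟨⟨0, by omega⟩⟩
    obtain ⟨d0, -, hd0⟩ := exists_min_image (univ : Finset (Fin m)) (fun d => be d - al d)
      univ_nonempty
    exact ⟨be d0 - al d0, by linarith [(hI d0).2.1], fun d => hd0 d (mem_univ d)⟩
  have hT1 : (1 : ℝ) ≤ max 1 (4 * Ct / (c0 * (cR * Dd))) := le_max_left _ _
  have hT2 : 4 * Ct / (c0 * (cR * Dd)) ≤ max 1 (4 * Ct / (c0 * (cR * Dd))) := le_max_right _ _
  generalize max 1 (4 * Ct / (c0 * (cR * Dd))) = T at hT1 hT2
  have hT0 : 0 < T := by linarith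
  refine ⟨c0 / 2 * (cR * Dd * lam ^ (m * s)), T, by positivity, hT1, ?_⟩
  have hlogt := Real.tendsto_log_atTop
  have e1 := hlogt.eventually_ge_atTop (max 1 (H0 / lam))
  have e2 := hlogt.eventually_ge_atTop (max (4 / (g * lam)) ((2 / (g * lam)) ^ 2))
  filter_upwards [hob, htail, htot, eventually_ge_atTop (4 : ℝ), e1, e2] with x hob htail htot hx4
    he1 he2
  intro ρ hρ
  have hx0 : 0 < x := by linarith
  have hlog1 : 1 ≤ Real.log x := (le_max_left _ _).trans he1
  have hlog : 0 < Real.log x := by linarith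
  obtain ⟨H, hH⟩ : ∃ H : ℝ, H = lam * Real.log x := ⟨_, rfl⟩
  rw [← hH]
  have hHpos : 0 < H := by rw [hH]; positivity
  have hHH0 : H0 ≤ H := by
    have h1 := (le_max_right _ _).trans he1
    rw [div_le_iff₀ hlam] at h1
    rw [hH]
    linarith
  have hH1 : 1 ≤ H := hH0.trans hHH0
  have hHlog : H ≤ Real.log x := by
    rw [hH]
    nlinarith
  have hgH : 4 ≤ g * H := by
    have h1 := (le_max_left _ _).trans he2
    rw [div_le_iff₀ (by positivity)] at h1
    rw [hH]
    linarith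
  -- `(log x)^(1/2) ≤ g H / 2`
  have hsq : Real.log x ^ (1 / 2 : ℝ) ≤ g * H / 2 := by
    have h1 := (le_max_right _ _).trans he2
    rw [← Real.sqrt_eq_rpow]
    have h2 : 2 / (g * lam) ≤ Real.sqrt (Real.log x) := Real.le_sqrt_of_sq_le h1
    rw [div_le_iff₀ (by positivity)] at h2
    have h3 : Real.sqrt (Real.log x) * Real.sqrt (Real.log x) = Real.log x :=
      Real.mul_self_sqrt hlog.le
    have h4 : 0 ≤ Real.sqrt (Real.log x) := Real.sqrt_nonneg _
    have h5 : 2 * Real.sqrt (Real.log x) ≤ g * H := by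
      calc 2 * Real.sqrt (Real.log x) ≤ (Real.sqrt (Real.log x) * (g * lam)) *
            Real.sqrt (Real.log x) := mul_le_mul_of_nonneg_right h2 h4
        _ = g * lam * (Real.sqrt (Real.log x) * Real.sqrt (Real.log x)) := by ring
        _ = g * H := by rw [h3, hH]; ring
    linarith
  obtain ⟨L, hL⟩ : ∃ L : ℕ, L = ⌊H⌋₊ := ⟨_, rfl⟩
  have hLle : ∀ y : ℕ, (y : ℝ) ≤ H ↔ y ≤ L := by
    intro y
    rw [hL]
    exact (Nat.le_floor_iff hHpos.le).symm
  have hL1 : 1 ≤ L := (hLle 1).1 (by simpa using hH1)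
  have hLH : (L : ℝ) ≤ H := (hLle L).2 le_rfl
  have hLlog : (L : ℝ) ≤ Real.log x := hLH.trans hHlog
  have hob := hob L hL1 hLlog
  have htail := htail L hL1 T hT1
  obtain ⟨BB, hBB⟩ : ∃ BB, BB = BXI m s R ρ al be H := ⟨_, rfl⟩
  have hBBc := hbx H hHH0 ρ
  rw [← hBB, ← hcRd] at hBBc
  have hmem : ∀ u ∈ BB, (∀ i, u i ≤ L) ∧ StrictMono u ∧ (∀ i, u i ≡ ρ [MOD R]) ∧
      ∀ (d : Fin m) (l : Fin s), al d * H ≤ (u (finProdFinEquiv (d, l)) : ℝ) ∧
        (u (finProdFinEquiv (d, l)) : ℝ) ≤ be d * H := by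
    intro u hu
    rw [hBB, mem_BXI, ← hL] at hu
    exact hu
  -- product of the lengths
  have hDH : ∏ d, ((be d - al d) * H) ^ s = Dd * H ^ (m * s) := by
    rw [hDd]
    have h1 : ∀ d : Fin m, ((be d - al d) * H) ^ s = (be d - al d) ^ s * H ^ s := fun d =>
      mul_pow _ _ _
    rw [prod_congr rfl fun d _ => h1 d, prod_mul_distrib, prod_const, card_univ, Fintype.card_fin,
      ← pow_mul, mul_comm s m]
  rw [hDH] at hBBc
  obtain ⟨M, hM⟩ : ∃ M : ℝ, M = BB.card * (x / Real.log x ^ (m * s)) := ⟨_, rfl⟩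
  have hxl : 0 < x / Real.log x ^ (m * s) := by positivity
  have hMge : cR * Dd * lam ^ (m * s) * x ≤ M := by
    rw [hM]
    have h1 := mul_le_mul_of_nonneg_right hBBc hxl.le
    refine le_trans (le_of_eq ?_) h1
    rw [hH, mul_pow]
    field_simp
  -- the three kinds of pairs
  obtain ⟨P1, hP1⟩ : ∃ P1 : (Fin (m * s) → ℕ) → ℕ → Prop, P1 = fun (u : Fin (m * s) → ℕ) (N : ℕ) =>
    T * x < (N : ℝ) ∧ ∀ i, Rgh (x ^ a) (N + u i) := ⟨_, rfl⟩
  obtain ⟨P2, hP2⟩ : ∃ P2 : (Fin (m * s) → ℕ) → ℕ → Prop, P2 = fun (u : Fin (m * s) → ℕ) (N : ℕ) =>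
    (∀ i, Rgh (x ^ a) (N + u i)) ∧ ∃ y ≤ L, (∀ i, u i ≠ y) ∧ Rgh (x ^ a) (N + y) := ⟨_, rfl⟩
  obtain ⟨P3, hP3⟩ : ∃ P3 : (Fin (m * s) → ℕ) → ℕ → Prop, P3 = fun (u : Fin (m * s) → ℕ) (N : ℕ) =>
    (N : ℝ) ≤ T * x ∧ R ∣ N ∧ (∀ i, Rgh (x ^ a) (N + u i)) ∧
      1 < wc w (fun q : Fin m × Fin s => u (finProdFinEquiv q)) N ∧
      (∀ y ≤ L, Rgh (x ^ a) (N + y) → ∃ i, u i = y) := ⟨_, rfl⟩
  have key : ∀ u ∈ BB, c0 * x / Real.log x ^ (m * s) ≤
      ∑ N ∈ (Tx x).filter (P1 u), gw x N + ∑ N ∈ (Tx x).filter (P2 u), gw x N +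
        ∑ N ∈ (Tx x).filter (P3 u), gw x N := by
    intro u hu
    obtain ⟨hu1, hu2, hu3, -⟩ := hmem u hu
    have hinj : Function.Injective (fun q : Fin m × Fin s => u (finProdFinEquiv q)) :=
      hu2.injective.comp finProdFinEquiv.injective
    have hRg : ∀ N, (∀ i, Rgh (x ^ a) (N + u i)) ↔
        ∀ q : Fin m × Fin s, Rgh (x ^ a) (N + u (finProdFinEquiv q)) := by
      intro N
      constructor
      · exact fun h q => h _
      · intro h i
        have := h (finProdFinEquiv.symm i)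
        rwa [Equiv.apply_symm_apply] at this
    refine (hob (fun q => u (finProdFinEquiv q)) (mem_IJ.2 ⟨fun q => hu1 _, hinj⟩) (by
      intro q
      have h1 := hu3 (finProdFinEquiv q)
      have h2 : Nat.gcd ρ R = 1 := hρ
      show Nat.gcd (u (finProdFinEquiv q)) R = 1
      rw [← h2]
      exact Nat.ModEq.gcd_eq h1)).trans ?_
    rw [sum_filter, sum_filter, sum_filter, sum_filter, ← sum_add_distrib, ← sum_add_distrib]
    refine sum_le_sum fun N _ => ?_
    have hg := (gw_pos x N).le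
    by_cases hE : R ∣ N ∧ (∀ q : Fin m × Fin s, Rgh (x ^ a) (N + u (finProdFinEquiv q))) ∧
        1 < wc w (fun q : Fin m × Fin s => u (finProdFinEquiv q)) N
    · rw [if_pos hE]
      have hE2 := (hRg N).2 hE.2.1
      by_cases h1 : P1 u N
      · rw [if_pos h1]
        have : (0 : ℝ) ≤ if P2 u N then gw x N else 0 := by split_ifs <;> linarith
        have : (0 : ℝ) ≤ if P3 u N then gw x N else 0 := by split_ifs <;> linarith
        linarith
      · by_cases h2 : P2 u N
        · rw [if_neg h1, if_pos h2]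
          have : (0 : ℝ) ≤ if P3 u N then gw x N else 0 := by split_ifs <;> linarith
          linarith
        · have h3 : P3 u N := by
            rw [hP3]
            refine ⟨?_, hE.1, hE2, hE.2.2, ?_⟩
            · by_contra hc
              apply h1
              rw [hP1]
              exact ⟨lt_of_not_ge hc, hE2⟩
            · intro y hy hr
              by_contra hne
              push Not at hne
              apply h2
              rw [hP2]
              exact ⟨hE2, y, hy, hne, hr⟩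
          rw [if_neg h1, if_neg h2, if_pos h3]
          linarith
    · rw [if_neg hE]
      have : (0 : ℝ) ≤ if P1 u N then gw x N else 0 := by split_ifs <;> linarith
      have : (0 : ℝ) ≤ if P2 u N then gw x N else 0 := by split_ifs <;> linarith
      have : (0 : ℝ) ≤ if P3 u N then gw x N else 0 := by split_ifs <;> linarith
      linarith
  have hS0 : c0 * M ≤ ∑ u ∈ BB, (∑ N ∈ (Tx x).filter (P1 u), gw x N +
      ∑ N ∈ (Tx x).filter (P2 u), gw x N + ∑ N ∈ (Tx x).filter (P3 u), gw x N) := by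
    have h1 : ∑ u ∈ BB, c0 * x / Real.log x ^ (m * s) ≤ _ := sum_le_sum key
    rw [sum_const, nsmul_eq_mul] at h1
    refine le_trans (le_of_eq ?_) h1
    rw [hM]
    ring
  rw [sum_add_distrib, sum_add_distrib, main_swap, main_swap, main_swap] at hS0
  -- far part
  have hF1 : ∑ N ∈ Tx x, gw x N * ((BB.filter (fun u => P1 u N)).card : ℝ) ≤ c0 / 4 * M := by
    have h1 : ∑ N ∈ Tx x, gw x N * ((BB.filter (fun u => P1 u N)).card : ℝ) ≤
        ∑ N ∈ (Tx x).filter (fun N : ℕ => T * x < (N : ℝ)),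
          gw x N * ((RJ (Fin (m * s)) x a L N).card : ℝ) := by
      rw [sum_filter]
      refine sum_le_sum fun N _ => ?_
      by_cases hN : T * x < (N : ℝ)
      · rw [if_pos hN]
        refine mul_le_mul_of_nonneg_left ?_ (gw_pos x N).le
        have : (BB.filter (fun u => P1 u N)).card ≤ (RJ (Fin (m * s)) x a L N).card := by
          refine card_le_card fun u hu => ?_
          rw [mem_filter, hP1] at hu
          obtain ⟨hu1, hu2, -⟩ := hmem u hu.1
          rw [mem_RJ]
          exact ⟨⟨hu1, hu2.injective⟩, hu.2.2⟩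
        exact_mod_cast this
      · rw [if_neg hN]
        have : BB.filter (fun u => P1 u N) = ∅ := by
          rw [filter_eq_empty_iff]
          intro u _ hu
          rw [hP1] at hu
          exact hN hu.1
        rw [this, card_empty, Nat.cast_zero, mul_zero]
    refine h1.trans (htail.trans ?_)
    have h2 : Ct / T ≤ c0 * (cR * Dd) / 4 := by
      rw [div_le_iff₀ (by positivity)] at hT2
      rw [div_le_iff₀ hT0]
      linarith
    have h3 : ((L : ℝ) / Real.log x) ^ (m * s) ≤ lam ^ (m * s) := by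
      apply pow_le_pow_left₀ (by positivity)
      rw [div_le_iff₀ hlog, ← hH]
      exact hLH
    calc Ct / T * x * ((L : ℝ) / Real.log x) ^ (m * s)
        ≤ c0 * (cR * Dd) / 4 * x * lam ^ (m * s) := by
          apply mul_le_mul _ h3 (by positivity) (by positivity)
          exact mul_le_mul_of_nonneg_right h2 hx0.le
      _ = c0 / 4 * (cR * Dd * lam ^ (m * s) * x) := by ring
      _ ≤ c0 / 4 * M := mul_le_mul_of_nonneg_left hMge (by positivity)
  -- pairs with one more rough site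
  have hF2 : ∑ N ∈ Tx x, gw x N * ((BB.filter (fun u => P2 u N)).card : ℝ) ≤ c0 / 4 * M := by
    obtain ⟨I, hId⟩ : ∃ I : Option (Fin (m * s)) → Finset ℕ, I = fun o => o.elim (Icc 0 L)
      (fun i => Icc ⌈al (finProdFinEquiv.symm i).1 * H⌉₊ ⌊be (finProdFinEquiv.symm i).1 * H⌋₊) :=
      ⟨_, rfl⟩
    have hInone : I none = Icc 0 L := by rw [hId]; rfl
    have hIsome : ∀ i, I (some i) = Icc ⌈al (finProdFinEquiv.symm i).1 * H⌉₊
        ⌊be (finProdFinEquiv.symm i).1 * H⌋₊ := by
      intro i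
      rw [hId]
      rfl
    have hfl : ∀ d : Fin m, ⌈al d * H⌉₊ ≤ ⌊be d * H⌋₊ ∧
        Real.log x ^ (1 / 2 : ℝ) ≤ ((⌊be d * H⌋₊ - ⌈al d * H⌉₊ : ℕ) : ℝ) ∧
        (((Icc ⌈al d * H⌉₊ ⌊be d * H⌋₊).card : ℕ) : ℝ) ≤ 2 * ((be d - al d) * H) := by
      intro d
      obtain ⟨h1, h2, h3⟩ := hI d
      have h4 : (⌈al d * H⌉₊ : ℝ) < al d * H + 1 := Nat.ceil_lt_add_one (by positivity)
      have h4' : al d * H ≤ (⌈al d * H⌉₊ : ℝ) := Nat.le_ceil _
      have h5 : be d * H - 1 < (⌊be d * H⌋₊ : ℝ) := by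
        have := Nat.lt_floor_add_one (be d * H)
        linarith
      have hbH : 0 ≤ be d * H := mul_nonneg (by linarith) hHpos.le
      have h5' : (⌊be d * H⌋₊ : ℝ) ≤ be d * H := Nat.floor_le hbH
      have h6 : 4 ≤ (be d - al d) * H := hgH.trans (mul_le_mul_of_nonneg_right (hg d) hHpos.le)
      have h6' : g * H ≤ (be d - al d) * H := mul_le_mul_of_nonneg_right (hg d) hHpos.le
      have h7 : (⌈al d * H⌉₊ : ℝ) ≤ (⌊be d * H⌋₊ : ℝ) := by nlinarith
      have h8 : ⌈al d * H⌉₊ ≤ ⌊be d * H⌋₊ := by exact_mod_cast h7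
      refine ⟨h8, ?_, ?_⟩
      · rw [Nat.cast_sub h8]
        have : g * H / 2 ≤ (be d - al d) * H - 2 := by linarith
        have h9 : (be d - al d) * H = be d * H - al d * H := by ring
        linarith
      · rw [Nat.card_Icc, Nat.cast_sub (by omega), Nat.cast_add, Nat.cast_one]
        have h9 : (be d - al d) * H = be d * H - al d * H := by ring
        linarith
    have hLtop : ∀ d : Fin m, ⌊be d * H⌋₊ ≤ L := by
      intro d
      rw [hL]
      apply Nat.floor_le_floor
      have := (hI d).2.2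
      nlinarith
    have hll : Real.log x ≤ Real.log x ^ 2 := by nlinarith
    have hLl2 : (L : ℝ) ≤ Real.log x ^ 2 := hLlog.trans hll
    have hg1 : g ≤ 1 := by
      have h3 := hg ⟨0, by omega⟩
      have h4 := hI ⟨0, by omega⟩
      linarith [h4.1, h4.2.2]
    have hbox : Pool.Agent.H79.LS.BoxAt x I := by
      rintro (_ | i)
      · refine ⟨0, L, by rw [hInone, zero_add], ?_, by rw [zero_add]; exact hLl2⟩
        have h1 : H - 1 < (L : ℝ) := by
          rw [hL]
          have := Nat.lt_floor_add_one H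
          linarith
        have h2 : g * H ≤ 1 * H := mul_le_mul_of_nonneg_right hg1 hHpos.le
        push_cast
        linarith
      · obtain ⟨h1, h2, -⟩ := hfl (finProdFinEquiv.symm i).1
        refine ⟨⌈al (finProdFinEquiv.symm i).1 * H⌉₊, ⌊be (finProdFinEquiv.symm i).1 * H⌋₊ -
          ⌈al (finProdFinEquiv.symm i).1 * H⌉₊, ?_, ?_, ?_⟩
        · rw [hIsome, Nat.add_sub_cancel' h1]
        · push_cast at h2 ⊢
          linarith
        · rw [Nat.add_sub_cancel' h1]
          have h3 : ((⌊be (finProdFinEquiv.symm i).1 * H⌋₊ : ℕ) : ℝ) ≤ L := by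
            exact_mod_cast hLtop _
          exact h3.trans hLl2
    have htot' := htot L I hbox
    have h1 : ∑ N ∈ Tx x, gw x N * ((BB.filter (fun u => P2 u N)).card : ℝ) ≤
        ∑ N ∈ Tx x, gw x N * (((RJ (Option (Fin (m * s))) x a L N).filter
          (fun h => ∀ j, h j ∈ I j)).card : ℝ) := by
      refine sum_le_sum fun N _ => ?_
      refine mul_le_mul_of_nonneg_left ?_ (gw_pos x N).le
      have := extraI x a L N (BB.filter (fun u => P2 u N)) I hInone (by
        intro u hu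
        rw [mem_filter, hP2] at hu
        obtain ⟨hu1, hu2, -, hu4⟩ := hmem u hu.1
        refine ⟨mem_IJ.2 ⟨hu1, hu2.injective⟩, hu.2.1, fun i => ?_, hu.2.2⟩
        rw [hIsome, mem_Icc]
        have h9 := hu4 (finProdFinEquiv.symm i).1 (finProdFinEquiv.symm i).2
        have h10 : finProdFinEquiv ((finProdFinEquiv.symm i).1, (finProdFinEquiv.symm i).2) = i := by
          rw [Prod.mk.eta, Equiv.apply_symm_apply]
        rw [h10] at h9
        exact ⟨Nat.ceil_le.2 h9.1, Nat.le_floor h9.2⟩)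
      exact_mod_cast this
    refine h1.trans ((le_of_eq ?_).trans (htot'.trans ?_))
    · refine sum_congr rfl fun N _ => ?_
      congr 3
    · have h2 : ∏ j, ((I j).card : ℝ) ≤ 2 ^ (m * s + 1) * H * (Dd * H ^ (m * s)) := by
        rw [Fintype.prod_option, hInone]
        have h3 : ((Icc 0 L).card : ℝ) ≤ 2 * H := by
          rw [Nat.card_Icc]
          push_cast
          have : (1 : ℝ) ≤ L := by exact_mod_cast hL1
          linarith
        have h4 : ∏ i : Fin (m * s), ((I (some i)).card : ℝ) ≤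
            2 ^ (m * s) * (Dd * H ^ (m * s)) := by
          have h5 : ∏ i : Fin (m * s), ((I (some i)).card : ℝ) ≤
              ∏ i : Fin (m * s), (2 * ((be (finProdFinEquiv.symm i).1 -
                al (finProdFinEquiv.symm i).1) * H)) := by
            refine prod_le_prod (fun i _ => Nat.cast_nonneg _) fun i _ => ?_
            rw [hIsome]
            exact (hfl _).2.2
          refine h5.trans (le_of_eq ?_)
          rw [prod_mul_distrib, prod_const, card_univ, hcard, ← hDH]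
          congr 1
          have h6 : ∏ i : Fin (m * s), ((be (finProdFinEquiv.symm i).1 -
              al (finProdFinEquiv.symm i).1) * H) =
              ∏ q : Fin m × Fin s, ((be q.1 - al q.1) * H) :=
            Equiv.prod_comp finProdFinEquiv.symm (fun q : Fin m × Fin s => (be q.1 - al q.1) * H)
          rw [h6, Fintype.prod_prod_type]
          refine prod_congr rfl fun d _ => ?_
          show ∏ _y : Fin s, (be d - al d) * H = ((be d - al d) * H) ^ s
          rw [prod_const, card_univ, Fintype.card_fin]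
        have h7 : (0 : ℝ) ≤ ∏ i : Fin (m * s), ((I (some i)).card : ℝ) :=
          prod_nonneg fun i _ => Nat.cast_nonneg _
        calc ((Icc 0 L).card : ℝ) * ∏ i : Fin (m * s), ((I (some i)).card : ℝ)
            ≤ 2 * H * (2 ^ (m * s) * (Dd * H ^ (m * s))) :=
              mul_le_mul h3 h4 h7 (by positivity)
          _ = 2 ^ (m * s + 1) * H * (Dd * H ^ (m * s)) := by ring
      calc Co * x * (∏ j, ((I j).card : ℝ)) / Real.log x ^ (m * s + 1)
          ≤ Co * x * (2 ^ (m * s + 1) * H * (Dd * H ^ (m * s))) / Real.log x ^ (m * s + 1) := by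
            gcongr
        _ = (Co * 2 ^ (m * s + 1) * lam) * (Dd * H ^ (m * s) * (x / Real.log x ^ (m * s))) := by
            rw [hH, pow_succ (Real.log x)]
            field_simp
        _ ≤ (c0 / 4 * cR) * (Dd * H ^ (m * s) * (x / Real.log x ^ (m * s))) := by
            apply mul_le_mul_of_nonneg_right hlam3
            positivity
        _ = c0 / 4 * (cR * (Dd * H ^ (m * s)) * (x / Real.log x ^ (m * s))) := by ring
        _ ≤ c0 / 4 * M := by
            rw [hM]
            apply mul_le_mul_of_nonneg_left _ (by positivity)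
            exact mul_le_mul_of_nonneg_right hBBc hxl.le
  -- the main part
  have hF3 : ∑ N ∈ Tx x, gw x N * ((BB.filter (fun u => P3 u N)).card : ℝ) ≤
      (((Tx x).filter (fun N : ℕ => (N : ℝ) ≤ T * x ∧ Gd1 m s R ρ w al be H N)).card : ℝ) := by
    rw [card_eq_sum_ones, Nat.cast_sum, sum_filter]
    refine sum_le_sum fun N hN => ?_
    by_cases hex : ∃ u ∈ BB, P3 u N
    · obtain ⟨u, hu, hu3⟩ := hex
      have hle : (BB.filter (fun u => P3 u N)).card ≤ 1 := by
        rw [card_le_one]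
        intro u1 h1 u2 h2
        rw [mem_filter, hP3] at h1 h2
        obtain ⟨h1m, -, -, h1r, -, h1s⟩ := h1
        obtain ⟨h2m, -, -, h2r, -, h2s⟩ := h2
        obtain ⟨h1l, h1st, -⟩ := hmem u1 h1m
        obtain ⟨h2l, h2st, -⟩ := hmem u2 h2m
        rw [← StrictMono.range_inj h1st h2st]
        ext y
        constructor
        · rintro ⟨i, rfl⟩
          exact h2s _ (h1l i) (h1r i)
        · rintro ⟨i, rfl⟩
          exact h1s _ (h2l i) (h2r i)
      have hG : (N : ℝ) ≤ T * x ∧ Gd1 m s R ρ w al be H N := by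
        rw [hP3] at hu3
        obtain ⟨h1, h2, h3, h4, h5⟩ := hu3
        refine ⟨h1, h2, u, by rw [← hBB]; exact hu, h4, fun y hy hp => ?_⟩
        exact h5 y ((hLle y).1 hy) (main_rough (by linarith) ha1 hN hp)
      rw [if_pos hG]
      have h6 : ((BB.filter (fun u => P3 u N)).card : ℝ) ≤ 1 := by exact_mod_cast hle
      calc gw x N * ((BB.filter (fun u => P3 u N)).card : ℝ) ≤ 1 * 1 :=
            mul_le_mul (gw_le_one x N) h6 (Nat.cast_nonneg _) zero_le_one
        _ = ((1 : ℕ) : ℝ) := by norm_num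
    · have h7 : BB.filter (fun u => P3 u N) = ∅ := by
        rw [filter_eq_empty_iff]
        intro u hu hu3
        exact hex ⟨u, hu, hu3⟩
      rw [h7, card_empty, Nat.cast_zero, mul_zero]
      split_ifs <;> simp
  have h8 : c0 / 2 * (cR * Dd * lam ^ (m * s)) * x = c0 / 2 * (cR * Dd * lam ^ (m * s) * x) := by
    ring
  have h9 : c0 / 2 * (cR * Dd * lam ^ (m * s) * x) ≤ c0 / 2 * M :=
    mul_le_mul_of_nonneg_left hMge (by positivity)
  linarith

end Pool.Agent.H34.RR
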