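import Pool.Agent.H92.MM.Pc

/-!
# [H34 RR PAR] (M1) Parameters with a light block

`St` is monotone in the number of shifts (only `hK` and `hκ` depend on it, `XT` is monotone in `K`).  `params` with the
constant `min c0 c1`, `P0 = 1`: it gives `s0`, and `k s0 a0/2^L ≤ c1` forces `2^L` large, so
`E AA ≤ E (1/2)^L (1 + L/2)^2 ≤ 1/1000` (`bS_le`, `bn_ge`, `l ≤ L`).  `s = ⌊(12/100)/(E AA)⌋`:
`119/1000 ≤ s E AA ≤ 12/100`, and `s ≤ s0` as `s0 E AA ≥ s0 c AA ≥ 4`.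
-/

set_option autoImplicit false

namespace Pool.Agent.H34.RR

open Finset Filter Pool.Agent.H92.MM

theorem st_mono {K K' L l b : ℕ} {bi : Fin L → ℕ} {a B η ϖ ε Δ κ : ℝ} (h : K' ≤ K)
    (hS : St K L l b bi a B η ϖ ε Δ κ) : St K' L l b bi a B η ϖ ε Δ κ := by
  have hK : (K' : ℝ) ≤ K := by exact_mod_cast h
  have hl : (0 : ℝ) ≤ l := Nat.cast_nonneg l
  refine ⟨hS.hl, hS.hb, hS.hbi, hS.ha, hS.ht, hS.hlt, hS.hε, hS.hε1, hS.hΔ0, hS.hΔ1, hS.hΔ, hS.hB,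
    (mul_le_mul_of_nonneg_right hK hl).trans hS.hK, hS.hlev, hS.hϖ, ?_⟩
  refine le_trans ?_ hS.hκ
  apply mul_le_mul_of_nonneg_left _ (by positivity)
  apply mul_le_mul_of_nonneg_left _ hS.hϖ
  unfold XT
  have h1 : ((l : ℝ) + 1) ^ K' ≤ ((l : ℝ) + 1) ^ K := pow_le_pow_right₀ (by linarith) h
  have h2 : (2 : ℝ) ^ (K' * L * (8 * b + 1) + 8 * ∑ i, (bi i + 1)) ≤
      2 ^ (K * L * (8 * b + 1) + 8 * ∑ i, (bi i + 1)) := by
    apply pow_le_pow_right₀ (by norm_num)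
    apply Nat.add_le_add_right
    exact Nat.mul_le_mul_right _ (Nat.mul_le_mul_right _ h)
  have h3 : (((l : ℝ) + 1) ^ K') ^ 2 ≤ (((l : ℝ) + 1) ^ K) ^ 2 :=
    pow_le_pow_left₀ (by positivity) h1 2
  exact mul_le_mul h3 h2 (by positivity) (by positivity)

private theorem lim_small (E : ℝ) (hE : 0 < E) : ∃ n : ℕ, ∀ L : ℕ, n ≤ L →
    E * ((1 / 2) ^ L * (1 + (L : ℝ) / 2) ^ 2) ≤ 1 / 1000 := by
  have h1 : Tendsto (fun n : ℕ => (n : ℝ) ^ 2 / (2 : ℝ) ^ n) atTop (nhds 0) :=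
    tendsto_pow_const_div_const_pow_of_one_lt 2 (by norm_num)
  have h2 := h1.eventually_lt_const (show (0 : ℝ) < 1 / (4000 * E) by positivity)
  obtain ⟨n, hn⟩ := eventually_atTop.1 h2
  refine ⟨max n 2, fun L hL => ?_⟩
  have h3 := hn L ((le_max_left _ _).trans hL)
  have hL2 : (2 : ℝ) ≤ L := by exact_mod_cast (le_max_right _ _).trans hL
  have h4 : (1 + (L : ℝ) / 2) ^ 2 ≤ (L : ℝ) ^ 2 := by nlinarith
  have h5 : (1 / 2 : ℝ) ^ L = 1 / 2 ^ L := by rw [one_div_pow]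
  have h6 : (0 : ℝ) < 2 ^ L := by positivity
  rw [h5]
  calc E * (1 / 2 ^ L * (1 + (L : ℝ) / 2) ^ 2) ≤ E * (1 / 2 ^ L * (L : ℝ) ^ 2) := by gcongr
    _ = E * ((L : ℝ) ^ 2 / 2 ^ L) := by ring
    _ ≤ E * (1 / (4000 * E)) := mul_le_mul_of_nonneg_left h3.le hE.le
    _ = 1 / 4000 := by field_simp
    _ ≤ 1 / 1000 := by norm_num

theorem params1 (η ε a0 Δ : ℝ) (j0 : ℕ) (hη : 0 < η) (hη1 : η ≤ 1) (hε : 0 < ε)
    (hε1 : ε ≤ 1 / 100) (ha0 : 0 < a0) (ha1 : a0 ≤ 1 / 20) (ha2 : a0 ≤ η / 16) (hΔ : 0 < Δ)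
    (hΔ1 : Δ ≤ 1 / 100) (hj : a0 * (4 * j0 + 10) ≤ η / 4)
    (ht : ∀ L : ℕ, ∏ i : Fin L, (1 + tau (2 * (j0 + L - i))) ≤ 1 + Δ)
    (k : ℕ) (hk : 1 ≤ k) (c c0 E : ℝ) (hc : 0 < c) (hc0 : 0 < c0) (hcE : c ≤ E) :
    ∃ (s L l b : ℕ) (B κ : ℝ), 1 ≤ s ∧
      St (k * s) L l b (fun i : Fin L => 2 * (j0 + L - i)) (a0 / 2 ^ L) B η
        (Real.exp (-(10 / (a0 / 2 ^ L)))) ε Δ κ ∧
      4 * κ ≤ Δ * (1 / 4) ^ L ∧ ((k * s : ℕ) : ℝ) * (a0 / 2 ^ L) ≤ c0 ∧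
      119 / 1000 ≤ s * (E * AA b l L) ∧ s * (E * AA b l L) ≤ 12 / 100 := by
  have hE : 0 < E := lt_of_lt_of_le hc hcE
  obtain ⟨n, hn⟩ := lim_small E hE
  have hc1 : 0 < min c0 (a0 / 2 ^ n) := lt_min hc0 (by positivity)
  obtain ⟨s0, L, l, b, B, κ, hs0, hS, hκ, hK, hP⟩ :=
    params η ε a0 Δ j0 hη hη1 hε hε1 ha0 ha1 ha2 hΔ hΔ1 hj ht k hk c (min c0 (a0 / 2 ^ n)) 1 hc hc1
  have hks0 : 1 ≤ k * s0 := Nat.mul_pos hk hs0
  have hks : (1 : ℝ) ≤ ((k * s0 : ℕ) : ℝ) := by exact_mod_cast hks0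
  have hL0 : (0 : ℝ) < 2 ^ L := by positivity
  have hn0 : (0 : ℝ) < 2 ^ n := by positivity
  have ha : 0 < a0 / 2 ^ L := by positivity
  have hLn : n ≤ L := by
    have h1 : a0 / 2 ^ L ≤ a0 / 2 ^ n := by
      calc a0 / 2 ^ L = 1 * (a0 / 2 ^ L) := (one_mul _).symm
        _ ≤ ((k * s0 : ℕ) : ℝ) * (a0 / 2 ^ L) := mul_le_mul_of_nonneg_right hks ha.le
        _ ≤ min c0 (a0 / 2 ^ n) := hK
        _ ≤ a0 / 2 ^ n := min_le_right _ _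
    rw [div_le_div_iff_of_pos_left ha0 hL0 hn0] at h1
    exact (pow_le_pow_iff_right₀ (by norm_num : (1 : ℝ) < 2)).1 h1
  have hS1 := bS_ge hS.hb hS.ht l
  have hS2 := bS_le hS.hb l
  have hn1 := bn_ge hS.hb hS.ht l
  have hl0 : (0 : ℝ) ≤ l := Nat.cast_nonneg l
  have hlL : (l : ℝ) ≤ L := by exact_mod_cast hS.hl
  obtain ⟨q, hq⟩ : ∃ q, q = AA b l L := ⟨_, rfl⟩
  have hq0 : 0 < q := by
    rw [hq]
    unfold AA
    have h1 : 0 < bS b l := by linarith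
    have h2 : 0 < bn b l := by linarith
    positivity
  have hq1 : E * q ≤ 1 / 1000 := by
    refine le_trans ?_ (hn L hLn)
    apply mul_le_mul_of_nonneg_left _ hE.le
    rw [hq]
    unfold AA
    have h1 : 0 ≤ bS b l := by linarith
    have h2 : bS b l ^ 2 ≤ (1 + (L : ℝ) / 2) ^ 2 := pow_le_pow_left₀ h1 (by linarith) 2
    have h3 : (0 : ℝ) ≤ (1 / 2) ^ L * bS b l ^ 2 := by positivity
    calc (1 / 2) ^ L * bS b l ^ 2 / bn b l ≤ (1 / 2) ^ L * bS b l ^ 2 / 1 :=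
          div_le_div_of_nonneg_left h3 (by norm_num) hn1
      _ = (1 / 2) ^ L * bS b l ^ 2 := div_one _
      _ ≤ (1 / 2) ^ L * (1 + (L : ℝ) / 2) ^ 2 := mul_le_mul_of_nonneg_left h2 (by positivity)
  rw [← hq] at hP
  have hEq : 0 < E * q := mul_pos hE hq0
  obtain ⟨s, hs⟩ : ∃ s : ℕ, s = ⌊(12 / 100) / (E * q)⌋₊ := ⟨_, rfl⟩
  have hsu : (s : ℝ) * (E * q) ≤ 12 / 100 := by
    rw [← le_div_iff₀ hEq, hs]
    exact Nat.floor_le (by positivity)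
  have hsl : 119 / 1000 ≤ (s : ℝ) * (E * q) := by
    have h1 : (12 / 100) / (E * q) < s + 1 := by
      rw [hs]
      exact Nat.lt_floor_add_one _
    rw [div_lt_iff₀ hEq] at h1
    linarith
  have hs1 : 1 ≤ s := by
    rcases Nat.eq_zero_or_pos s with h1 | h1
    · rw [h1] at hsl
      norm_num at hsl
    · exact h1
  have hss : s ≤ s0 := by
    have h1 : (s : ℝ) * (E * q) ≤ s0 * (E * q) := by
      have h2 : (s0 : ℝ) * (c / 4 * q) ≤ s0 * (E * q) := by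
        apply mul_le_mul_of_nonneg_left _ (Nat.cast_nonneg _)
        apply mul_le_mul_of_nonneg_right _ hq0.le
        linarith
      linarith
    have h2 := le_of_mul_le_mul_right h1 hEq
    exact_mod_cast h2
  rw [hq] at hsl hsu
  refine ⟨s, L, l, b, B, κ, hs1, st_mono (Nat.mul_le_mul_left k hss) hS, hκ, ?_, hsl, hsu⟩
  have h1 : ((k * s : ℕ) : ℝ) ≤ ((k * s0 : ℕ) : ℝ) := by exact_mod_cast Nat.mul_le_mul_left k hss
  exact (mul_le_mul_of_nonneg_right h1 ha.le).trans (hK.trans (min_le_left _ _))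

end Pool.Agent.H34.RR
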